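import Mathlib

/-!
Period matrices of the families `X = Y ×_S S' ⟶ S`, where `S' ⟶ S` is the double cover
`x ^ 2 = s` of an open subset `S` of the multiplicative group, and Zariski closures over a
subfield of `ℂ`.
-/

namespace Pool.Agent.NH26.PM

open MvPolynomial

/-- The field of algebraic numbers, as a subfield of `ℂ`. -/
noncomputable def algNum : Subfield ℂ := (algebraicClosure ℚ ℂ).toSubfield

/-- The coordinates of a point `(s, M)` of `𝔾_m × GL_n`: `none` is the coordinate `s`, and
`some (i, j)` is the entry `M i j`. -/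
def coords {n : Type} (p : ℂ × Matrix n n ℂ) : Option (n × n) → ℂ
  | none => p.1
  | some ij => p.2 ij.1 ij.2

/-- The Zariski closure over the subfield `F` of a subset `A` of `𝔾_m × GL_n`: the points of
`𝔾_m × GL_n` at which every polynomial with coefficients in `F` (in `s` and the matrix entries)
that vanishes on `A` vanishes. -/
def closureRel (F : Subfield ℂ) {n : Type} [Fintype n] [DecidableEq n]
    (A : Set (ℂ × Matrix n n ℂ)) : Set (ℂ × Matrix n n ℂ) :=
  {p | p.1 ≠ 0 ∧ p.2.det ≠ 0 ∧ ∀ f : MvPolynomial (Option (n × n)) F,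
    (∀ q ∈ A, aeval (coords q) f = 0) → aeval (coords p) f = 0}

/-- The Zariski closure over the subfield `F` of a subset `A` of `GL_n`. -/
def closureGL (F : Subfield ℂ) {n : Type} [Fintype n] [DecidableEq n]
    (A : Set (Matrix n n ℂ)) : Set (Matrix n n ℂ) :=
  {M | M.det ≠ 0 ∧ ∀ f : MvPolynomial (n × n) F,
    (∀ N ∈ A, aeval (fun ij : n × n => N ij.1 ij.2) f = 0) →
      aeval (fun ij : n × n => M ij.1 ij.2) f = 0}

/-- The fibre over `s` of a subset of `𝔾_m × GL_n`. -/
def fibreAt {n : Type} (B : Set (ℂ × Matrix n n ℂ)) (s : ℂ) : Set (Matrix n n ℂ) :=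
  {M | (s, M) ∈ B}

/-- The period matrix of the fibre `X_s = Y_s × {x : x ^ 2 = s}` of `X = Y ×_S S'`: the rows
are indexed by the basis `ω_a · x ^ i` of `H^j(X/S) = H^j(Y/S) ⊗ (O_S ⊕ O_S x)`, the columns by
a basis `γ_b` of `H^j(Y_s, ℤ)` and by the two components of `X_s`, numbered by `e`; the entry is
the period of `Y_s` times the value of `x ^ i` on the component. -/
def perX {m : Type} (PY : Matrix m m ℂ) {s : ℂ} (e : Fin 2 ≃ {x : ℂ // x ^ 2 = s}) :
    Matrix (m × Fin 2) (m × Fin 2) ℂ :=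
  fun r c => PY r.1 c.1 * (e c.2 : ℂ) ^ (r.2 : ℕ)

/-- The graph of the multivalued period matrix of `X = Y ×_S S' ⟶ S`, where `G` is the graph of
the multivalued period matrix of `Y ⟶ S`. All values are included: those of the period matrix of
`Y`, and both numberings of the fibre of `S' ⟶ S`. -/
def graphX {m : Type} (G : Set (ℂ × Matrix m m ℂ)) :
    Set (ℂ × Matrix (m × Fin 2) (m × Fin 2) ℂ) :=
  {p | ∃ PY : Matrix m m ℂ, (p.1, PY) ∈ G ∧
    ∃ e : Fin 2 ≃ {x : ℂ // x ^ 2 = p.1}, p.2 = perX PY e}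

end Pool.Agent.NH26.PM
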