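import Pool.Agent.NH26.PM.Defs

namespace Pool.Agent.NH26.PM

open MvPolynomial

variable {m : Type} [Fintype m] [DecidableEq m]

/-- The numbering of the fibre with the two points exchanged. -/
def swapped {s : ℂ} (e : Fin 2 ≃ {x : ℂ // x ^ 2 = s}) : Fin 2 ≃ {x : ℂ // x ^ 2 = s} :=
  (Equiv.swap 0 1).trans e

theorem swapped_zero {s : ℂ} (e : Fin 2 ≃ {x : ℂ // x ^ 2 = s}) : swapped e 0 = e 1 := by
  simp [swapped]

theorem swapped_one {s : ℂ} (e : Fin 2 ≃ {x : ℂ // x ^ 2 = s}) : swapped e 1 = e 0 := by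
  simp [swapped]

theorem e_one {s : ℂ} (e : Fin 2 ≃ {x : ℂ // x ^ 2 = s}) : (e 1 : ℂ) = - (e 0 : ℂ) := by
  have h0 := (e 0).2
  have h1 := (e 1).2
  have hne : (e 1 : ℂ) ≠ (e 0 : ℂ) := by
    intro h
    have : e 1 = e 0 := Subtype.ext h
    exact absurd (e.injective this) (by decide)
  have : (e 1 : ℂ) ^ 2 = (e 0 : ℂ) ^ 2 := by rw [h0, h1]
  rcases sq_eq_sq_iff_eq_or_eq_neg.mp this with h | h
  · exact absurd h hne
  · exact h

theorem e_zero_ne {s : ℂ} (e : Fin 2 ≃ {x : ℂ // x ^ 2 = s}) : (e 0 : ℂ) ≠ 0 := by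
  intro h
  have h1 := e_one e
  rw [h, neg_zero, ← h] at h1
  have : e 1 = e 0 := Subtype.ext h1
  exact absurd (e.injective this) (by decide)

theorem perX_det_ne {PY : Matrix m m ℂ} (hPY : PY.det ≠ 0) {s : ℂ}
    (e : Fin 2 ≃ {x : ℂ // x ^ 2 = s}) : (perX PY e).det ≠ 0 := by
  have hk : perX PY e = Matrix.kroneckerMap (· * ·) PY
      (Matrix.vandermonde (fun k : Fin 2 => (e k : ℂ))).transpose := by
    ext r c
    simp [perX, Matrix.kroneckerMap, Matrix.vandermonde]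
  have hv : (Matrix.vandermonde (fun k : Fin 2 => (e k : ℂ))).det ≠ 0 := by
    rw [Matrix.det_vandermonde_ne_zero_iff]
    intro i j hij
    exact e.injective (Subtype.ext hij)
  rw [hk, Matrix.det_kronecker, Matrix.det_transpose]
  exact mul_ne_zero (pow_ne_zero _ hPY) (pow_ne_zero _ hv)

omit [Fintype m] [DecidableEq m] in
theorem entry_rel {PY : Matrix m m ℂ} {s : ℂ} (e : Fin 2 ≃ {x : ℂ // x ^ 2 = s}) (a b : m) :
    perX PY e (a, 1) (b, 0) = (e 0 : ℂ) * perX PY e (a, 0) (b, 0) := by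
  simp [perX]; ring

omit [Fintype m] [DecidableEq m] in
theorem entry_rel_swapped {PY : Matrix m m ℂ} {s : ℂ} (e : Fin 2 ≃ {x : ℂ // x ^ 2 = s})
    {a b : m} (hab : PY a b ≠ 0) :
    perX PY (swapped e) (a, 1) (b, 0) ≠ (e 0 : ℂ) * perX PY (swapped e) (a, 0) (b, 0) := by
  intro h
  simp only [perX, swapped_zero, e_one e] at h
  simp at h
  have h2 : (2 : ℂ) * ((e 0 : ℂ) * PY a b) = 0 := by linear_combination -h
  have h3 := mul_ne_zero (two_ne_zero : (2 : ℂ) ≠ 0) (mul_ne_zero (e_zero_ne e) hab)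
  exact h3 h2

theorem exists_entry [Nonempty m] {PY : Matrix m m ℂ} (hPY : PY.det ≠ 0) :
    ∃ a b, PY a b ≠ 0 := by
  by_contra hcon
  push Not at hcon
  have : PY = 0 := by ext a b; simpa using hcon a b
  rw [this, Matrix.det_zero] at hPY
  exact hPY rfl

/-- Specialisation of the first coordinate. -/
noncomputable def specS {n : Type} (F : Subfield ℂ) (s : F) (f : MvPolynomial (Option (n × n)) F) :
    MvPolynomial (n × n) F :=
  aeval (fun o : Option (n × n) => Option.elim o (C s) (fun ij => X ij)) f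

theorem aeval_specS {n : Type} (F : Subfield ℂ) (s : F)
    (f : MvPolynomial (Option (n × n)) F) (M : Matrix n n ℂ) :
    aeval (fun ij : n × n => M ij.1 ij.2) (specS F s f) = aeval (coords ((s : ℂ), M)) f := by
  have : ((aeval (fun ij : n × n => M ij.1 ij.2)).comp
      (aeval (fun o : Option (n × n) => Option.elim o (C s) (fun ij => X ij))) :
        MvPolynomial (Option (n × n)) F →ₐ[F] ℂ) = aeval (coords ((s : ℂ), M)) := by
    apply MvPolynomial.algHom_ext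
    intro o
    cases o with
    | none => simp [coords]; rfl
    | some ij => simp [coords]
  rw [specS, ← this]; rfl

theorem closure_subset (F : Subfield ℂ) {G : Set (ℂ × Matrix m m ℂ)}
    (hG : ∀ p ∈ G, p.1 ≠ 0 ∧ p.2.det ≠ 0) {s : ℂ} {PY : Matrix m m ℂ} (h : (s, PY) ∈ G)
    (hs : s ∈ F) (e : Fin 2 ≃ {x : ℂ // x ^ 2 = s}) :
    closureGL F {perX PY e} ⊆ fibreAt (closureRel F (graphX G)) s := by
  intro M hM
  refine ⟨(hG _ h).1, hM.1, ?_⟩
  intro f hf
  have h1 := aeval_specS F ⟨s, hs⟩ f M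
  have h2 := hM.2 (specS F ⟨s, hs⟩ f) (by
    intro N hN
    rw [Set.mem_singleton_iff] at hN
    subst hN
    rw [aeval_specS]
    exact hf _ ⟨PY, h, e, rfl⟩)
  rw [← h1]; exact h2

theorem swapped_mem (F : Subfield ℂ) {G : Set (ℂ × Matrix m m ℂ)}
    (hG : ∀ p ∈ G, p.1 ≠ 0 ∧ p.2.det ≠ 0) {s : ℂ} {PY : Matrix m m ℂ} (h : (s, PY) ∈ G)
    (e : Fin 2 ≃ {x : ℂ // x ^ 2 = s}) :
    perX PY (swapped e) ∈ fibreAt (closureRel F (graphX G)) s :=
  ⟨(hG _ h).1, perX_det_ne (hG _ h).2 _, fun _ hf => hf _ ⟨PY, h, swapped e, rfl⟩⟩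

/-- The linear relation `M ((a,1),(b,0)) - y M ((a,0),(b,0))`. -/
noncomputable def relPoly (F : Subfield ℂ) (y : F) (a b : m) :
    MvPolynomial ((m × Fin 2) × (m × Fin 2)) F :=
  X ((a, 1), (b, 0)) - C y * X ((a, 0), (b, 0))

omit [Fintype m] [DecidableEq m] in
theorem aeval_relPoly (F : Subfield ℂ) (y : F) (a b : m)
    (M : Matrix (m × Fin 2) (m × Fin 2) ℂ) :
    aeval (fun ij : (m × Fin 2) × (m × Fin 2) => M ij.1 ij.2) (relPoly F y a b)
      = M (a, 1) (b, 0) - (y : ℂ) * M (a, 0) (b, 0) := by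
  simp [relPoly]; left; rfl

omit [Fintype m] [DecidableEq m] in
theorem relPoly_deg (F : Subfield ℂ) (y : F) (a b : m) :
    (relPoly F y a b).totalDegree ≤ 1 := by
  unfold relPoly
  refine (totalDegree_sub _ _).trans (max_le ?_ ?_)
  · rw [totalDegree_X]
  · refine (totalDegree_mul _ _).trans ?_
    rw [totalDegree_C, totalDegree_X]

/-- The closure of one value of the period matrix is strictly smaller than the fibre of the
closure of the graph. -/
theorem closure_ssubset [Nonempty m] (F : Subfield ℂ) {G : Set (ℂ × Matrix m m ℂ)}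
    (hG : ∀ p ∈ G, p.1 ≠ 0 ∧ p.2.det ≠ 0) {s : ℂ} {PY : Matrix m m ℂ} (h : (s, PY) ∈ G)
    (e : Fin 2 ≃ {x : ℂ // x ^ 2 = s}) (hy : (e 0 : ℂ) ∈ F) :
    closureGL F {perX PY e} ⊂ fibreAt (closureRel F (graphX G)) s := by
  have hs : s ∈ F := by
    have := (e 0).2
    rw [← this]; exact F.pow_mem hy 2
  obtain ⟨a, b, hab⟩ := exists_entry (hG _ h).2
  refine ⟨closure_subset F hG h hs e, fun hcon => ?_⟩
  have h1 := hcon (swapped_mem F hG h e)
  have h2 := h1.2 (relPoly F ⟨_, hy⟩ a b) (by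
    intro N hN
    rw [Set.mem_singleton_iff] at hN
    subst hN
    rw [aeval_relPoly, entry_rel, sub_self])
  rw [aeval_relPoly] at h2
  exact entry_rel_swapped e hab (sub_eq_zero.mp h2)

theorem mem_algNum {z : ℂ} : z ∈ algNum ↔ IsAlgebraic ℚ z := by
  unfold algNum
  exact mem_algebraicClosure_iff

theorem root_mem_algNum {s : ℂ} (hs : IsAlgebraic ℚ s) (e : Fin 2 ≃ {x : ℂ // x ^ 2 = s})
    (k : Fin 2) : (e k : ℂ) ∈ algNum := by
  rw [mem_algNum]
  have h := (e k).2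
  rw [← h] at hs
  exact hs.of_pow (by norm_num)

/-- A linear relation over a field that contains the square root of `s`. -/
theorem exists_relation [Nonempty m] {G : Set (ℂ × Matrix m m ℂ)}
    (hG : ∀ p ∈ G, p.1 ≠ 0 ∧ p.2.det ≠ 0) {s : ℂ} {PY : Matrix m m ℂ} (h : (s, PY) ∈ G)
    (e : Fin 2 ≃ {x : ℂ // x ^ 2 = s}) (κ : Subfield ℂ) (hκ : ∀ z ∈ κ, IsAlgebraic ℚ z)
    (hy : (e 0 : ℂ) ∈ κ) :
    ∃ f : MvPolynomial ((m × Fin 2) × (m × Fin 2)) κ, f.totalDegree ≤ 1 ∧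
      (∀ M ∈ closureGL algNum {perX PY e},
        aeval (fun ij : (m × Fin 2) × (m × Fin 2) => M ij.1 ij.2) f = 0) ∧
      ∃ M ∈ fibreAt (closureRel algNum (graphX G)) s,
        aeval (fun ij : (m × Fin 2) × (m × Fin 2) => M ij.1 ij.2) f ≠ 0 := by
  obtain ⟨a, b, hab⟩ := exists_entry (hG _ h).2
  refine ⟨relPoly κ ⟨_, hy⟩ a b, relPoly_deg _ _ _ _, ?_, perX PY (swapped e),
    swapped_mem algNum hG h e, ?_⟩
  · intro M hM
    have hy' : (e 0 : ℂ) ∈ algNum := mem_algNum.mpr (hκ _ hy)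
    have h2 := hM.2 (relPoly algNum ⟨_, hy'⟩ a b) (by
      intro N hN
      rw [Set.mem_singleton_iff] at hN
      subst hN
      rw [aeval_relPoly, entry_rel, sub_self])
    rw [aeval_relPoly] at h2 ⊢
    exact h2
  · rw [aeval_relPoly]
    intro h2
    exact entry_rel_swapped e hab (sub_eq_zero.mp h2)

end Pool.Agent.NH26.PM
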